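import Pool.Agent.U707.LI.All

/-!
# Geometric origin from the Hecke eigenvalues at a set of places of positive density

`K` is a number field (for instance an imaginary quadratic field), `R` a continuous representation
of its Galois group over `ℚ̄_p` which is irreducible on every open subgroup (for instance the
representation `ρ_{f,p}` of a Bianchi newform `f` without complex multiplication).

1. If `tr R(Frob_v) = ∑ c_i tr W_i(Frob_v)` for the places `v` of a set of positive upper density,
where the `W_i` are finitely many representations and the `c_i` are coefficients in `ℚ̄_p`,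
then for some `i` with `c_i ≠ 0` and a finite Galois extension `L` of `K`, `R` is a subquotient
of `W_i` over `L`, and a subquotient of the tensor product of `W_i` and the permutation
representation of the Galois group of `K` on `Gal(L/K)`. If `W_i` is a subquotient of the
cohomology of `X` then this product is a subquotient of the cohomology of `X × L`, a smooth
projective variety over `K`. So `R` arises from étale cohomology if the `W_i` do.

2. If the numbers `a_v` (the Hecke eigenvalues of `f`) with `tr R(Frob_v) = τ(a_v)` at almost all
`v` are combinations `a_v = ∑ c_k #X_k(𝔽_v)` of the numbers of points of finitely many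
smooth projective varieties, for the places `v` of a set of positive upper density, then `R` is a
subquotient of some `H^j(X_k × L)`. The condition does not depend on `p`: it is enough
to know it for the numbers `a_v`, to have the assertion for all `p` and for all embeddings of the
field generated by the `a_v`.

The proof: Chebotarev's theorem for closed sets, points of density in the Galois group for the Haar
measure, finitely many translates; so the relation holds on a coset of an open subgroup, and then
linear independence of the representations of the subgroup. Parts of the proof are by helper140,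
helper784, helper187, helper612, helper200, helper94 (see `Pool.Agent.U707.LI.All`).
-/

set_option autoImplicit false

namespace Pool.Agent.Results.MP_2e0e07_nt.CountsAtSomePlaces

open NumberField IsDedekindDomain Module Pool.Agent.W401.Cheb Pool.Agent.U707 Pool.Agent.U707.LI

/-- **Geometric origin from the traces at a set of places of positive upper density.** -/
theorem result {K : Type} [Field K] [NumberField K] {p : ℕ} [Fact p.Prime]
    (R : LI.Rep K (PadicAlgCl p)) (hR : R.StronglyIrreducible)
    {P : Set (HeightOneSpectrum (𝓞 K))} (hP : PosDensity P) :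
    (∀ (ι : Type) [Fintype ι] (W : ι → LI.Rep K (PadicAlgCl p)) (c : ι → PadicAlgCl p),
      (∀ v ∈ P, ∀ φ, GeoFrob v φ → R.tr φ = ∑ i, c i * (W i).tr φ) →
      ∃ i, c i ≠ 0 ∧ ∃ U : Subgroup (GK K), U.Normal ∧ IsOpen (U : Set (GK K)) ∧
        SubquotOn U R.ρ (W i).ρ ∧ SubquotOn ⊤ R.ρ (perm U (W i).ρ)) ∧
    ∀ (κ : Type) [Fintype κ] (d : κ → ℕ) (H : κ → ℕ → LI.Rep K (PadicAlgCl p))
      (cnt : κ → HeightOneSpectrum (𝓞 K) → ℤ)
      (F : Type) [Field F] (τ : F →+* PadicAlgCl p) (a : HeightOneSpectrum (𝓞 K) → F)
      (c : κ → F),
      (∃ B : Set (HeightOneSpectrum (𝓞 K)), B.Finite ∧ ∀ v ∉ B, ∀ φ, GeoFrob v φ → ∀ k,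
        (cnt k v : PadicAlgCl p) =
          ∑ j ∈ Finset.range (2 * d k + 1), (-1) ^ j * (H k j).tr φ) →
      (∃ B : Set (HeightOneSpectrum (𝓞 K)), B.Finite ∧ ∀ v ∉ B, ∀ φ, GeoFrob v φ →
        R.tr φ = τ (a v)) →
      (∀ v ∈ P, a v = ∑ k, c k * cnt k v) →
      ∃ k, c k ≠ 0 ∧ ∃ j ≤ 2 * d k, ∃ U : Subgroup (GK K), U.Normal ∧
        IsOpen (U : Set (GK K)) ∧ SubquotOn ⊤ R.ρ (perm U (H k j).ρ) :=
  ⟨fun _ _ W c h => geo sHAAR sCHEB sTRANS sIND sFR R hR W c hP h,
    fun _ _ d H cnt _ _ τ a c hcnt ha h =>
      geoCount sHAAR sCHEB sTRANS sIND sFR R hR d H cnt hcnt τ a ha c hP h⟩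

end Pool.Agent.Results.MP_2e0e07_nt.CountsAtSomePlaces
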